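import Pool.Agent.Helper2.TS.Spec

/-! TS parts SUM1, SUM2, SUM3: sums over primes from the bound of Chebyshev. -/

set_option autoImplicit false

open Finset
open Pool.Agent.Helper2.TS Pool.Agent.Helper20.EP

namespace Pool.Agent.Helper48.TS

lemma mem_primesLE {Y : ℝ} (hY : 0 ≤ Y) {p : ℕ} : p ∈ primesLE Y ↔ p.Prime ∧ (p : ℝ) ≤ Y := by
  unfold primesLE
  rw [mem_filter, mem_range, Nat.lt_succ_iff, Nat.le_floor_iff hY]
  tauto

lemma sum_log_le {Y : ℝ} (hY : 0 ≤ Y) : ∑ p ∈ primesLE Y, Real.log p ≤ Real.log 4 * Y := by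
  refine le_trans (le_of_eq ?_) (Chebyshev.theta_le_log4_mul_x hY)
  rw [Chebyshev.theta_eq_sum_Icc]
  refine sum_congr ?_ fun _ _ => rfl
  ext p
  unfold primesLE
  simp only [mem_filter, mem_range, mem_Icc]
  constructor
  · rintro ⟨h1, h2⟩
    exact ⟨⟨Nat.zero_le _, by omega⟩, h2⟩
  · rintro ⟨⟨_, h1⟩, h2⟩
    exact ⟨by omega, h2⟩

/-- Sums over `(Y / 2, Y]`. -/
lemma block {Y c : ℝ} (hY : 0 < Y) (s : Finset ℕ) (hs : ∀ p ∈ s, p.Prime ∧ (p : ℝ) ≤ Y)
    (w : ℕ → ℝ) (hw : ∀ p ∈ s, w p ≤ c) (hc : 0 ≤ c) :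
    ∑ p ∈ s, Real.log p * w p ≤ c * (Real.log 4 * Y) := by
  have h1 : ∑ p ∈ s, Real.log p * w p ≤ ∑ p ∈ s, Real.log p * c := by
    refine sum_le_sum fun p hp => mul_le_mul_of_nonneg_left (hw p hp) ?_
    exact Real.log_nonneg (by exact_mod_cast (hs p hp).1.one_lt.le)
  have h2 : ∑ p ∈ s, Real.log p ≤ Real.log 4 * Y := by
    refine le_trans (sum_le_sum_of_subset_of_nonneg ?_ ?_) (sum_log_le hY.le)
    · intro p hp
      exact (mem_primesLE hY.le).2 (hs p hp)
    · intro p hp _
      exact Real.log_nonneg (by exact_mod_cast ((mem_primesLE hY.le).1 hp).1.one_lt.le)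
  rw [← sum_mul, mul_comm] at h1
  exact h1.trans (mul_le_mul_of_nonneg_left h2 hc)

lemma primesLE_empty {Y : ℝ} (hY : Y < 2) : primesLE Y = ∅ := by
  rw [eq_empty_iff_forall_notMem]
  intro p hp
  unfold primesLE at hp
  rw [mem_filter, mem_range] at hp
  have h1 : ⌊Y⌋₊ < 2 := by
    rw [Nat.floor_lt' (by norm_num)]
    exact_mod_cast hY
  have h2 := hp.2.two_le
  omega

theorem sum1 : S_SUM1 := by
  intro D hD
  have hD0 : (0 : ℝ) < D := by exact_mod_cast hD
  set e : ℝ := 1 / (D : ℝ) with he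
  have he0 : 0 < e := by positivity
  have he1 : e ≤ 1 := by
    rw [he, div_le_one hD0]
    exact_mod_cast hD
  set q : ℝ := (2 : ℝ) ^ (-e) with hq
  have hq0 : 0 < q := Real.rpow_pos_of_pos (by norm_num) _
  have hq1 : q < 1 := Real.rpow_lt_one_of_one_lt_of_neg (by norm_num) (by linarith)
  set c : ℝ := 2 * Real.log 4 with hc
  have hlog4 : 0 < Real.log 4 := Real.log_pos (by norm_num)
  have hc0 : 0 < c := by positivity
  set C : ℝ := c / (1 - q) with hC
  have hC0 : 0 < C := div_pos hc0 (by linarith)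
  refine ⟨C, hC0, ?_⟩
  have key : ∀ n : ℕ, ∀ Y : ℝ, 0 < Y → Y < 2 ^ n →
      ∑ p ∈ primesLE Y, Real.log p / p * (p : ℝ) ^ e ≤ C * Y ^ e := by
    intro n
    induction n with
    | zero =>
      intro Y hY0 hY
      rw [primesLE_empty (by linarith [hY.trans_eq (pow_zero (2 : ℝ))]), sum_empty]
      positivity
    | succ n ih =>
      intro Y hY0 hY
      have h1 := ih (Y / 2) (by positivity) (by rw [pow_succ] at hY; linarith)
      have hsub : primesLE Y = primesLE (Y / 2) ∪ (primesLE Y).filter (fun p : ℕ => Y / 2 < p) := by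
        ext p
        rw [mem_union, mem_filter, mem_primesLE hY0.le, mem_primesLE (by positivity)]
        constructor
        · rintro ⟨h2, h3⟩
          rcases le_or_gt (p : ℝ) (Y / 2) with h4 | h4
          · exact Or.inl ⟨h2, h4⟩
          · exact Or.inr ⟨⟨h2, h3⟩, h4⟩
        · rintro (⟨h2, h3⟩ | ⟨h2, _⟩)
          · exact ⟨h2, by linarith⟩
          · exact h2
      have hdisj : Disjoint (primesLE (Y / 2)) ((primesLE Y).filter (fun p : ℕ => Y / 2 < p)) := by
        rw [Finset.disjoint_left]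
        intro p h2 h3
        rw [mem_primesLE (by positivity)] at h2
        exact absurd (mem_filter.1 h3).2 (not_lt.2 h2.2)
      rw [hsub, sum_union hdisj]
      have h2 : ∑ p ∈ (primesLE Y).filter (fun p : ℕ => Y / 2 < p),
          Real.log p / p * (p : ℝ) ^ e ≤ c * Y ^ e := by
        have h3 := block (c := (Y / 2) ^ (e - 1)) hY0
          ((primesLE Y).filter (fun p : ℕ => Y / 2 < p)) (fun p hp =>
            (mem_primesLE hY0.le).1 (mem_filter.1 hp).1) (fun p => (p : ℝ) ^ (e - 1)) (by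
            intro p hp
            exact Real.rpow_le_rpow_of_nonpos (by positivity) (mem_filter.1 hp).2.le
              (by linarith)) (by positivity)
        refine le_trans (le_of_eq ?_) (h3.trans ?_)
        · refine sum_congr rfl fun p hp => ?_
          have hp0 : (0 : ℝ) < p := by
            exact_mod_cast ((mem_primesLE hY0.le).1 (mem_filter.1 hp).1).1.pos
          rw [Real.rpow_sub_one hp0.ne']
          ring
        · rw [Real.div_rpow hY0.le (by norm_num), Real.rpow_sub_one hY0.ne']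
          have h4 : (1 : ℝ) / 2 ≤ (2 : ℝ) ^ (e - 1) := by
            rw [Real.rpow_sub_one (by norm_num)]
            have : (1 : ℝ) ≤ (2 : ℝ) ^ e := Real.one_le_rpow (by norm_num) he0.le
            linarith
          have h5 : Y ^ e / Y / (2 : ℝ) ^ (e - 1) * (Real.log 4 * Y) =
              Real.log 4 * Y ^ e / (2 : ℝ) ^ (e - 1) := by
            field_simp
          rw [h5, div_le_iff₀ (by positivity), hc]
          have h6 : 0 < Real.log 4 * Y ^ e := by positivity
          nlinarith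
      have h3 : C * (Y / 2) ^ e = C * q * Y ^ e := by
        rw [Real.div_rpow hY0.le (by norm_num), hq, Real.rpow_neg (by norm_num)]
        ring
      have h4 : C * q + c = C := by
        rw [hC]
        have : (1 - q) ≠ 0 := by linarith
        field_simp
        ring
      calc _ ≤ C * (Y / 2) ^ e + c * Y ^ e := add_le_add h1 h2
        _ = C * Y ^ e := by rw [h3, ← add_mul, h4]
  intro Y hY
  obtain ⟨n, hn⟩ := pow_unbounded_of_one_lt Y (one_lt_two (α := ℝ))
  exact key n Y (by linarith) hn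

theorem sum2 : S_SUM2 := by
  refine ⟨4, by norm_num, ?_⟩
  have hl4 : Real.log 4 = 2 * Real.log 2 := by
    rw [show (4 : ℝ) = 2 ^ 2 by norm_num, Real.log_pow]
    norm_num
  have hl2 := Real.log_two_lt_d9
  have hl2' := Real.log_two_gt_d9
  have hblock : ∀ Y Z : ℝ, 0 < Y → Z ≤ 2 * Y → 0 < Z →
      ∑ p ∈ (primesLE Z).filter (fun p : ℕ => Y < p), Real.log p / p ≤ 2 * Real.log 4 := by
    intro Y Z hY hZY hZ
    have h3 := block (c := 1 / Y) hZ ((primesLE Z).filter (fun p : ℕ => Y < p)) (fun p hp =>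
      (mem_primesLE hZ.le).1 (mem_filter.1 hp).1) (fun p => 1 / (p : ℝ)) (by
        intro p hp
        exact one_div_le_one_div_of_le hY (mem_filter.1 hp).2.le) (by positivity)
    refine le_trans (le_of_eq ?_) (h3.trans ?_)
    · refine sum_congr rfl fun p _ => ?_
      ring
    · rw [one_div, inv_mul_le_iff₀ hY]
      have : 0 < Real.log 4 := Real.log_pos (by norm_num)
      nlinarith
  have key : ∀ n : ℕ, ∀ Y Z : ℝ, 1 ≤ Y → Y ≤ Z → Z < 2 ^ n * Y →
      ∑ p ∈ (primesLE Z).filter (fun p : ℕ => Y < p), Real.log p / p ≤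
        4 * (1 + Real.log (Z / Y)) := by
    intro n
    induction n with
    | zero =>
      intro Y Z hY hYZ h
      rw [pow_zero, one_mul] at h
      exact absurd hYZ (not_le.2 h)
    | succ n ih =>
      intro Y Z hY hYZ h
      have hY0 : 0 < Y := by linarith
      have hZ0 : 0 < Z := by linarith
      rcases le_or_gt Z (2 * Y) with h1 | h1
      · have h2 := hblock Y Z hY0 h1 hZ0
        have h3 : 0 ≤ Real.log (Z / Y) := Real.log_nonneg (by rwa [le_div_iff₀ hY0, one_mul])
        rw [hl4] at h2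
        linarith
      · have h2 := ih Y (Z / 2) hY (by linarith) (by rw [pow_succ] at h; linarith)
        have h3 := hblock (Z / 2) Z (by positivity) (by linarith) hZ0
        have hsub : (primesLE Z).filter (fun p : ℕ => Y < p) =
            (primesLE (Z / 2)).filter (fun p : ℕ => Y < p) ∪
            (primesLE Z).filter (fun p : ℕ => Z / 2 < p) := by
          ext p
          rw [mem_union, mem_filter, mem_filter, mem_filter, mem_primesLE hZ0.le,
            mem_primesLE (by positivity)]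
          constructor
          · rintro ⟨⟨h4, h5⟩, h6⟩
            rcases le_or_gt (p : ℝ) (Z / 2) with h7 | h7
            · exact Or.inl ⟨⟨h4, h7⟩, h6⟩
            · exact Or.inr ⟨⟨h4, h5⟩, h7⟩
          · rintro (⟨⟨h4, h5⟩, h6⟩ | ⟨⟨h4, h5⟩, h6⟩)
            · exact ⟨⟨h4, by linarith⟩, h6⟩
            · exact ⟨⟨h4, h5⟩, by linarith⟩
        have hdisj : Disjoint ((primesLE (Z / 2)).filter (fun p : ℕ => Y < p))
            ((primesLE Z).filter (fun p : ℕ => Z / 2 < p)) := by
          rw [Finset.disjoint_left]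
          intro p h4 h5
          rw [mem_filter, mem_primesLE (by positivity)] at h4
          exact absurd (mem_filter.1 h5).2 (not_lt.2 h4.1.2)
        rw [hsub, sum_union hdisj]
        have h4 : Real.log (Z / 2 / Y) = Real.log (Z / Y) - Real.log 2 := by
          rw [← Real.log_div (by positivity) (by norm_num)]
          congr 1
          field_simp
        rw [h4] at h2
        rw [hl4] at h3
        linarith
  intro Y Z hY hYZ
  obtain ⟨n, hn⟩ := pow_unbounded_of_one_lt (Z / Y) (one_lt_two (α := ℝ))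
  have hY0 : 0 < Y := by linarith
  exact key n Y Z hY hYZ (by rwa [div_lt_iff₀ hY0] at hn)

theorem sum3 : S_SUM3 := by
  have hs : Summable fun n : ℕ => 2 * (1 / (n : ℝ) ^ (3 / 2 : ℝ)) :=
    (Real.summable_one_div_nat_rpow.2 (by norm_num)).mul_left 2
  refine ⟨(∑' n : ℕ, 2 * (1 / (n : ℝ) ^ (3 / 2 : ℝ))) + 1, ?_, ?_⟩
  · have : 0 ≤ ∑' n : ℕ, 2 * (1 / (n : ℝ) ^ (3 / 2 : ℝ)) := tsum_nonneg fun n => by positivity
    linarith
  intro Y hY
  have h1 : ∑ p ∈ primesLE Y, Real.log p / (p : ℝ) ^ 2 ≤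
      ∑ p ∈ primesLE Y, 2 * (1 / (p : ℝ) ^ (3 / 2 : ℝ)) := by
    refine sum_le_sum fun p hp => ?_
    have hp0 : (0 : ℝ) < p := by exact_mod_cast ((mem_primesLE (by linarith)).1 hp).1.pos
    have h2 := Real.log_le_rpow_div hp0.le (ε := 1 / 2) (by norm_num)
    have h3 : (p : ℝ) ^ (1 / 2 : ℝ) * (p : ℝ) ^ (3 / 2 : ℝ) = (p : ℝ) ^ 2 := by
      rw [← Real.rpow_add hp0, ← Real.rpow_natCast]
      norm_num
    rw [div_le_iff₀ (by positivity), ← h3]
    have h4 : 2 * (1 / (p : ℝ) ^ (3 / 2 : ℝ)) * ((p : ℝ) ^ (1 / 2 : ℝ) * (p : ℝ) ^ (3 / 2 : ℝ)) =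
        2 * (p : ℝ) ^ (1 / 2 : ℝ) := by
      have : (p : ℝ) ^ (3 / 2 : ℝ) ≠ 0 := by positivity
      field_simp
    rw [h4]
    linarith
  have h2 : ∑ p ∈ primesLE Y, 2 * (1 / (p : ℝ) ^ (3 / 2 : ℝ)) ≤
      ∑' n : ℕ, 2 * (1 / (n : ℝ) ^ (3 / 2 : ℝ)) :=
    hs.sum_le_tsum _ fun n _ => by positivity
  linarith

end Pool.Agent.Helper48.TS
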